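import Mathlib

open Topology Filter

namespace Pool.Agent.Results.MP_54b62b_gt.NotLie

/-- A space is zero-dimensional if it is nonempty and its clopen sets form a base. -/
def ZeroDimensional (X : Type) [TopologicalSpace X] : Prop :=
  Nonempty X ∧ TopologicalSpace.IsTopologicalBasis {s : Set X | IsClopen s}

/-- Local minimality of an (abelian) topological group. -/
def LocallyMinimal (G : Type) [AddCommGroup G] [t : TopologicalSpace G] : Prop :=
  ∃ V ∈ 𝓝 (0 : G), ∀ t' : TopologicalSpace G,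
    @IsTopologicalAddGroup G t' _ → @T2Space G t' → t ≤ t' →
      V ∈ @nhds G t' (0 : G) → t' = t

/-- Every Cauchy sequence (for the group uniformity) converges. -/
def SequentiallyComplete (G : Type) [AddCommGroup G] [TopologicalSpace G] : Prop :=
  ∀ u : ℕ → G,
    (∀ U ∈ 𝓝 (0 : G), ∃ N : ℕ, ∀ m ≥ N, ∀ n ≥ N, u m - u n ∈ U) →
      ∃ x : G, Tendsto u atTop (𝓝 x)

/-- Every point has an open neighbourhood homeomorphic to an open subset of some `ℝⁿ`. -/
def LocallyEuclidean (X : Type) [TopologicalSpace X] : Prop :=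
  ∀ x : X, ∃ (n : ℕ) (e : OpenPartialHomeomorph X (EuclideanSpace ℝ (Fin n))), x ∈ e.source

/-! ### The weights -/

/-- exponents `(i+1)!` -/
def ea (i : ℕ) : ℕ := (i + 1).factorial

/-- snowflake exponents `1 / i!` -/
noncomputable def pw (i : ℕ) : ℝ := ((i.factorial : ℝ))⁻¹

lemma pw_pos (i : ℕ) : 0 < pw i := by
  unfold pw
  have : 0 < (i.factorial : ℝ) := by exact_mod_cast Nat.factorial_pos i
  positivity

lemma pw_le_one (i : ℕ) : pw i ≤ 1 := by
  unfold pw
  have : (1 : ℝ) ≤ (i.factorial : ℝ) := by exact_mod_cast Nat.factorial_pos i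
  exact inv_le_one_of_one_le₀ this

/-- weight of the `i`-th coordinate -/
noncomputable def wt (i : ℕ) (t : UnitAddCircle) : ℝ := ‖t‖ ^ (pw i)

lemma wt_nonneg (i : ℕ) (t : UnitAddCircle) : 0 ≤ wt i t := Real.rpow_nonneg (norm_nonneg _) _

lemma wt_zero (i : ℕ) : wt i 0 = 0 := by
  unfold wt; rw [norm_zero]; exact Real.zero_rpow (pw_pos i).ne'

lemma wt_neg (i : ℕ) (t : UnitAddCircle) : wt i (-t) = wt i t := by
  unfold wt; rw [norm_neg]

lemma wt_add (i : ℕ) (s t : UnitAddCircle) : wt i (s + t) ≤ wt i s + wt i t := by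
  unfold wt
  calc ‖s + t‖ ^ (pw i) ≤ (‖s‖ + ‖t‖) ^ (pw i) :=
        Real.rpow_le_rpow (norm_nonneg _) (norm_add_le _ _) (pw_pos i).le
    _ ≤ _ := Real.rpow_add_le_add_rpow (norm_nonneg _) (norm_nonneg _) (pw_pos i).le (pw_le_one i)

lemma wt_eq_zero (i : ℕ) {t : UnitAddCircle} (h : wt i t = 0) : t = 0 := by
  unfold wt at h
  rw [Real.rpow_eq_zero (norm_nonneg _) (pw_pos i).ne'] at h
  exact norm_eq_zero.mp h

lemma continuous_wt (i : ℕ) : Continuous (wt i) := by
  unfold wt
  exact continuous_norm.rpow_const (fun _ => Or.inr (pw_pos i).le)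

/-- multiplication by `2 ^ ea k` at most doubles the `i`-th weight if `k < i` -/
lemma wt_nsmul_le {k i : ℕ} (h : k < i) (t : UnitAddCircle) :
    wt i ((2 ^ ea k) • t) ≤ 2 * wt i t := by
  unfold wt
  have h1 : ‖(2 ^ ea k) • t‖ ≤ ((2 : ℝ) ^ ea k) * ‖t‖ := by
    have := @norm_nsmul_le _ _ t (2 ^ ea k)
    push_cast at this
    exact this
  calc ‖(2 ^ ea k) • t‖ ^ (pw i) ≤ (((2 : ℝ) ^ ea k) * ‖t‖) ^ (pw i) :=
        Real.rpow_le_rpow (norm_nonneg _) h1 (pw_pos i).le
    _ = (((2 : ℝ) ^ ea k) ^ (pw i)) * ‖t‖ ^ (pw i) :=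
        Real.mul_rpow (by positivity) (norm_nonneg _)
    _ ≤ 2 * ‖t‖ ^ (pw i) := by
        apply mul_le_mul_of_nonneg_right _ (Real.rpow_nonneg (norm_nonneg _) _)
        rw [← Real.rpow_natCast, ← Real.rpow_mul (by norm_num)]
        have h2 : (ea k : ℝ) * pw i ≤ 1 := by
          unfold ea pw
          rw [← div_eq_mul_inv]
          have hpos : 0 < (i.factorial : ℝ) := by exact_mod_cast Nat.factorial_pos i
          rw [div_le_one hpos]
          exact_mod_cast Nat.factorial_le (Nat.succ_le_of_lt h)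
        calc (2 : ℝ) ^ ((ea k : ℝ) * pw i) ≤ (2 : ℝ) ^ (1 : ℝ) :=
              Real.rpow_le_rpow_of_exponent_le (by norm_num) h2
          _ = 2 := Real.rpow_one 2

/-- a nonzero element of 2-power order has a multiple of norm `1/2` -/
lemma exists_half {t : UnitAddCircle} : ∀ (n : ℕ), t ≠ 0 → (2 ^ n) • t = 0 →
    ∃ s < n, ‖(2 ^ s) • t‖ = 1 / 2 := by
  intro n
  induction n with
  | zero => intro h0 h; simp at h; exact absurd h h0
  | succ n ih =>
    intro h0 h
    by_cases hn : (2 ^ n) • t = 0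
    · obtain ⟨s, hs, h1⟩ := ih h0 hn
      exact ⟨s, by omega, h1⟩
    · refine ⟨n, by omega, ?_⟩
      set y := (2 ^ n) • t with hy
      have hy2 : (2 : ℕ) • y = 0 := by
        rw [hy, smul_smul]
        rw [← h]; congr 1; ring
      -- representative
      obtain ⟨r, hr1, hr2⟩ : ∃ r : ℝ, |r| ≤ 1 / 2 ∧ (r : UnitAddCircle) = y := by
        obtain ⟨r, hr⟩ := QuotientAddGroup.mk_surjective y
        refine ⟨r - round r, abs_sub_round r, ?_⟩
        rw [← hr]
        have : ((r - round r : ℝ) : UnitAddCircle) = (r : UnitAddCircle) - ((round r : ℝ) : UnitAddCircle) :=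
          AddCircle.coe_sub 1 _ _
        rw [this]
        have h3 : (((round r : ℤ) : ℝ) : UnitAddCircle) = 0 := by
          rw [AddCircle.coe_eq_zero_iff]
          exact ⟨round r, by simp⟩
        rw [h3, sub_zero]
      have hnorm : ‖y‖ = |r| := by
        rw [← hr2]
        rw [AddCircle.norm_coe_eq_abs_iff (1 : ℝ) one_ne_zero]
        simpa using hr1
      have h2r : ((2 * r : ℝ) : UnitAddCircle) = 0 := by
        have : ((2 * r : ℝ) : UnitAddCircle) = (2 : ℕ) • (r : UnitAddCircle) := by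
          rw [two_nsmul, two_mul]; exact AddCircle.coe_add 1 r r
        rw [this, hr2, hy2]
      rw [AddCircle.coe_eq_zero_iff] at h2r
      obtain ⟨m, hm⟩ := h2r
      have hm' : (m : ℝ) = 2 * r := by simpa using hm
      have hr0 : r ≠ 0 := by
        rintro rfl
        apply hn
        rw [← hr2]; exact AddCircle.coe_zero 1
      have hm0 : m ≠ 0 := by
        rintro rfl
        simp at hm'
        exact hr0 hm'
      have habs : (1 : ℝ) ≤ |(m : ℝ)| := by
        exact_mod_cast Int.one_le_abs hm0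
      rw [hm', abs_mul] at habs
      simp at habs
      rw [hnorm]
      linarith

/-! ### The group -/

/-- compatible sequences with summable weights -/
def GSub : AddSubgroup (ℕ → UnitAddCircle) where
  carrier := {x | Summable (fun i => wt i (x i)) ∧ (∀ i, (2 ^ ea i) • x i = 0) ∧
    ∀ i, (2 ^ (ea (i + 1) - ea i)) • x (i + 1) = x i}
  zero_mem' := by
    refine ⟨?_, ?_, ?_⟩
    · simp only [Pi.zero_apply, wt_zero]
      exact summable_zero
    · intro i; simp
    · intro i; simp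
  add_mem' := by
    rintro x y ⟨hx1, hx2, hx3⟩ ⟨hy1, hy2, hy3⟩
    refine ⟨?_, ?_, ?_⟩
    · exact Summable.of_nonneg_of_le (fun i => wt_nonneg _ _) (fun i => wt_add i _ _) (hx1.add hy1)
    · intro i; rw [Pi.add_apply, smul_add, hx2, hy2, add_zero]
    · intro i; rw [Pi.add_apply, smul_add, hx3, hy3, Pi.add_apply]
  neg_mem' := by
    rintro x ⟨hx1, hx2, hx3⟩
    refine ⟨?_, ?_, ?_⟩
    · simpa only [Pi.neg_apply, wt_neg] using hx1
    · intro i; rw [Pi.neg_apply, smul_neg, hx2, neg_zero]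
    · intro i; rw [Pi.neg_apply, smul_neg, hx3, Pi.neg_apply]

/-- The group of the example. -/
def GG : Type := GSub

noncomputable instance : AddCommGroup GG := inferInstanceAs (AddCommGroup GSub)

/-- coordinates -/
def co (i : ℕ) : GG →+ UnitAddCircle := (Pi.evalAddMonoidHom _ i).comp GSub.subtype

lemma co_ext {x y : GG} (h : ∀ i, co i x = co i y) : x = y := by
  apply Subtype.ext
  funext i
  exact h i

lemma summable_wt (x : GG) : Summable (fun i => wt i (co i x)) := x.2.1

lemma co_order (x : GG) (i : ℕ) : (2 ^ ea i) • co i x = 0 := x.2.2.1 i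

lemma co_compat (x : GG) (i : ℕ) : (2 ^ (ea (i + 1) - ea i)) • co (i + 1) x = co i x := x.2.2.2 i

/-- The norm. -/
noncomputable def NN (x : GG) : ℝ := ∑' i, wt i (co i x)

lemma wt_le_NN (x : GG) (i : ℕ) : wt i (co i x) ≤ NN x :=
  (summable_wt x).le_tsum i (fun _ _ => wt_nonneg _ _)

noncomputable instance : NormedAddCommGroup GG :=
  AddGroupNorm.toNormedAddCommGroup
    { toFun := NN
      map_zero' := by
        unfold NN
        simp [wt_zero]
      add_le' := by
        intro x y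
        unfold NN
        rw [← (summable_wt x).tsum_add (summable_wt y)]
        apply Summable.tsum_le_tsum _ (summable_wt _) ((summable_wt x).add (summable_wt y))
        intro i
        rw [map_add]
        exact wt_add i _ _
      neg' := by
        intro x
        unfold NN
        simp [wt_neg]
      eq_zero_of_map_eq_zero' := by
        intro x hx
        apply co_ext
        intro i
        rw [map_zero]
        apply wt_eq_zero i
        apply le_antisymm _ (wt_nonneg _ _)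
        have h := wt_le_NN x i
        rw [hx] at h
        exact h }

lemma norm_def (x : GG) : ‖x‖ = ∑' i, wt i (co i x) := rfl

lemma wt_le_norm (x : GG) (i : ℕ) : wt i (co i x) ≤ ‖x‖ := wt_le_NN x i

lemma hasSum_norm (x : GG) : HasSum (fun i => wt i (co i x)) ‖x‖ := (summable_wt x).hasSum

/-- asymptotic additivity of the norm -/
lemma almost_additive (s : GG) {η : ℝ} (hη : 0 < η) :
    ∃ l : ℕ, ∀ x : GG, (∀ i < l, co i x = 0) → ‖s‖ + ‖x‖ - η ≤ ‖s + x‖ := by
  have ht : Tendsto (fun l => ∑ i ∈ Finset.range l, wt i (co i s)) atTop (𝓝 ‖s‖) :=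
    (hasSum_norm s).tendsto_sum_nat
  have hev : ∀ᶠ l in atTop, ‖s‖ - η / 2 < ∑ i ∈ Finset.range l, wt i (co i s) :=
    ht.eventually (lt_mem_nhds (by linarith))
  obtain ⟨l, hl⟩ := hev.exists
  refine ⟨l, fun x hx => ?_⟩
  have hsum : HasSum (fun i => wt i (co i (s + x)) + wt i (co i s) - wt i (co i x))
      (‖s + x‖ + ‖s‖ - ‖x‖) :=
    ((hasSum_norm (s + x)).add (hasSum_norm s)).sub (hasSum_norm x)
  have hnn : ∀ i, 0 ≤ wt i (co i (s + x)) + wt i (co i s) - wt i (co i x) := by
    intro i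
    have h1 : co i x = co i (s + x) + -(co i s) := by rw [map_add]; abel
    have h2 := wt_add i (co i (s + x)) (-(co i s))
    rw [← h1, wt_neg] at h2
    linarith
  have h3 : ∑ i ∈ Finset.range l, (wt i (co i (s + x)) + wt i (co i s) - wt i (co i x)) ≤
      ‖s + x‖ + ‖s‖ - ‖x‖ :=
    sum_le_hasSum _ (fun i _ => hnn i) hsum
  have h4 : ∑ i ∈ Finset.range l, (wt i (co i (s + x)) + wt i (co i s) - wt i (co i x)) =
      2 * ∑ i ∈ Finset.range l, wt i (co i s) := by
    rw [Finset.mul_sum]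
    apply Finset.sum_congr rfl
    intro i hi
    rw [map_add, hx i (Finset.mem_range.mp hi), wt_zero, add_zero]
    ring
  rw [h4] at h3
  linarith

/-- multiples by `2 ^ ea k` are small in the norm and vanish in the first coordinates -/
lemma recurrent (z : GG) {ε : ℝ} (hε : 0 < ε) (l : ℕ) :
    ∃ k : ℕ, (∀ i < l, co i ((2 ^ ea k) • z) = 0) ∧ ‖(2 ^ ea k) • z‖ < ε := by
  have ht : Tendsto (fun k => ∑ i ∈ Finset.range (k + 1), wt i (co i z)) atTop (𝓝 ‖z‖) :=
    (tendsto_add_atTop_iff_nat 1).mpr (hasSum_norm z).tendsto_sum_nat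
  have hev : ∀ᶠ k in atTop, ‖z‖ - ε / 2 < ∑ i ∈ Finset.range (k + 1), wt i (co i z) :=
    ht.eventually (lt_mem_nhds (by linarith))
  obtain ⟨k, hk1, hk2⟩ := (hev.and (eventually_ge_atTop l)).exists
  have hz : ∀ i ≤ k, co i ((2 ^ ea k) • z) = 0 := by
    intro i hi
    rw [map_nsmul]
    have h1 : ea i ≤ ea k := Nat.factorial_le (by omega)
    obtain ⟨c, hc⟩ := Nat.exists_eq_add_of_le h1
    rw [hc, pow_add, mul_comm, mul_smul, co_order, smul_zero]
  refine ⟨k, fun i hi => hz i (by omega), ?_⟩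
  have hsum : HasSum (fun i => 2 * wt i (co i z) - wt i (co i ((2 ^ ea k) • z)))
      (2 * ‖z‖ - ‖(2 ^ ea k) • z‖) :=
    ((hasSum_norm z).mul_left 2).sub (hasSum_norm _)
  have hnn : ∀ i, 0 ≤ 2 * wt i (co i z) - wt i (co i ((2 ^ ea k) • z)) := by
    intro i
    rcases Nat.lt_or_ge k i with h | h
    · have := wt_nsmul_le h (co i z)
      rw [map_nsmul]
      linarith
    · rw [hz i h, wt_zero]
      have := wt_nonneg i (co i z)
      linarith
  have h3 : ∑ i ∈ Finset.range (k + 1), (2 * wt i (co i z) - wt i (co i ((2 ^ ea k) • z))) ≤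
      2 * ‖z‖ - ‖(2 ^ ea k) • z‖ :=
    sum_le_hasSum _ (fun i _ => hnn i) hsum
  have h4 : ∑ i ∈ Finset.range (k + 1), (2 * wt i (co i z) - wt i (co i ((2 ^ ea k) • z))) =
      2 * ∑ i ∈ Finset.range (k + 1), wt i (co i z) := by
    rw [Finset.mul_sum]
    apply Finset.sum_congr rfl
    intro i hi
    have := Finset.mem_range.mp hi
    rw [hz i (by omega), wt_zero]
    ring
  rw [h4] at h3
  linarith

lemma two_torsion_free {x : GG} (h : (2 : ℕ) • x = 0) : x = 0 := by
  apply co_ext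
  intro i
  rw [map_zero, ← co_compat x i]
  have h1 : ea i < ea (i + 1) := by
    unfold ea
    exact (Nat.factorial_lt (by omega)).mpr (by omega)
  obtain ⟨c, hc⟩ := Nat.exists_eq_add_of_le (show 1 ≤ ea (i + 1) - ea i by omega)
  rw [hc, add_comm, pow_succ, mul_smul, ← map_nsmul, h, map_zero, smul_zero]

lemma two_pow_torsion_free {x : GG} (n : ℕ) (hx : x ≠ 0) : (2 ^ n) • x ≠ 0 := by
  induction n with
  | zero => simpa using hx
  | succ n ih =>
    intro h
    apply ih
    apply two_torsion_free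
    rw [smul_smul, ← pow_succ', h]

/-- if the `i`-th coordinate is nonzero, some small multiple is large -/
lemma exists_large {x : GG} {i : ℕ} (hx : co i x ≠ 0) : ∃ s < ea i, 1 / 2 ≤ ‖(2 ^ s) • x‖ := by
  obtain ⟨s, hs, h⟩ := exists_half (ea i) hx (co_order x i)
  refine ⟨s, hs, ?_⟩
  calc (1 / 2 : ℝ) = (1 / 2 : ℝ) ^ (1 : ℝ) := (Real.rpow_one _).symm
    _ ≤ (1 / 2 : ℝ) ^ (pw i) :=
        Real.rpow_le_rpow_of_exponent_ge (by norm_num) (by norm_num) (pw_le_one i)
    _ = wt i (co i ((2 ^ s) • x)) := by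
        rw [map_nsmul]; unfold wt; rw [h]
    _ ≤ _ := wt_le_norm _ i

lemma exists_large' {x : GG} (hx : x ≠ 0) : ∃ s, 1 / 2 ≤ ‖(2 ^ s) • x‖ := by
  have : ∃ i, co i x ≠ 0 := by
    by_contra hcon
    push Not at hcon
    exact hx (co_ext (fun i => by rw [hcon i, map_zero]))
  obtain ⟨i, hi⟩ := this
  obtain ⟨s, -, h⟩ := exists_large hi
  exact ⟨s, h⟩

/-- a nonzero element: the image of `1 ∈ ℤ₂` -/
lemma exists_nonzero : ∃ z : GG, z ≠ 0 := by
  let x : ℕ → UnitAddCircle := fun i => (((2 : ℝ) ^ ea i)⁻¹ : ℝ)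
  have hx : x ∈ GSub := by
    refine ⟨?_, ?_, ?_⟩
    · have hw : ∀ i, wt i (x i) = (1 / 2 : ℝ) ^ (i + 1) := by
        intro i
        have h1 : ‖x i‖ = ((2 : ℝ) ^ ea i)⁻¹ := by
          have hpos : (0 : ℝ) < ((2 : ℝ) ^ ea i)⁻¹ := by positivity
          have h2 : ‖x i‖ = |((2 : ℝ) ^ ea i)⁻¹| := by
            change ‖((((2 : ℝ) ^ ea i)⁻¹ : ℝ) : UnitAddCircle)‖ = _
            rw [AddCircle.norm_coe_eq_abs_iff (1 : ℝ) one_ne_zero, abs_of_pos hpos, abs_one]
            have h3 : 1 ≤ ea i := Nat.factorial_pos _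
            rw [one_div]
            apply inv_anti₀ (by norm_num)
            calc (2 : ℝ) = 2 ^ 1 := by norm_num
              _ ≤ 2 ^ ea i := pow_le_pow_right₀ (by norm_num) h3
          rw [h2, abs_of_pos hpos]
        unfold wt
        rw [h1, Real.inv_rpow (by positivity), ← Real.rpow_natCast, ← Real.rpow_mul (by norm_num)]
        have h4 : (ea i : ℝ) * pw i = ((i + 1 : ℕ) : ℝ) := by
          unfold ea pw
          have hpos : (i.factorial : ℝ) ≠ 0 := by exact_mod_cast (Nat.factorial_pos i).ne'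
          rw [Nat.factorial_succ]
          push_cast
          field_simp
        rw [h4, Real.rpow_natCast, one_div, inv_pow]
      simp_rw [hw]
      exact (summable_nat_add_iff 1).mpr summable_geometric_two
    · intro i
      change (2 ^ ea i) • ((((2 : ℝ) ^ ea i)⁻¹ : ℝ) : UnitAddCircle) = 0
      rw [← AddCircle.coe_nsmul, AddCircle.coe_eq_zero_iff]
      refine ⟨1, ?_⟩
      rw [nsmul_eq_mul]
      push_cast
      rw [mul_inv_cancel₀ (by positivity)]
      simp
    · intro i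
      change (2 ^ (ea (i + 1) - ea i)) • ((((2 : ℝ) ^ ea (i + 1))⁻¹ : ℝ) : UnitAddCircle) =
        ((((2 : ℝ) ^ ea i)⁻¹ : ℝ) : UnitAddCircle)
      rw [← AddCircle.coe_nsmul]
      congr 1
      rw [nsmul_eq_mul]
      push_cast
      have h1 : ea i ≤ ea (i + 1) := Nat.factorial_le (by omega)
      rw [pow_sub₀ _ (by norm_num) h1]
      field_simp
  refine ⟨⟨x, hx⟩, ?_⟩
  intro h
  have h0 : x 0 = 0 := by
    have := congrArg (co 0) h
    rw [map_zero] at this
    exact this
  have h1 : ((1 / 2 : ℝ) : UnitAddCircle) = 0 := by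
    rw [← h0]
    change _ = ((((2 : ℝ) ^ ea 0)⁻¹ : ℝ) : UnitAddCircle)
    congr 1
    norm_num [ea]
  rw [AddCircle.coe_eq_zero_iff] at h1
  obtain ⟨m, hm⟩ := h1
  have hm' : (m : ℝ) = 1 / 2 := by simpa using hm
  have h2 : (2 * m : ℤ) = 1 := by
    have : ((2 * m : ℤ) : ℝ) = 1 := by push_cast; rw [hm']; norm_num
    exact_mod_cast this
  omega

/-- every neighbourhood of zero contains a nonzero element -/
lemma exists_small_nonzero {z : GG} (hz : z ≠ 0) {ε : ℝ} (hε : 0 < ε) (l : ℕ) :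
    ∃ n : ℕ, n • z ≠ 0 ∧ (∀ i < l, co i (n • z) = 0) ∧ ‖n • z‖ < ε := by
  obtain ⟨k, hk1, hk2⟩ := recurrent z hε l
  exact ⟨2 ^ ea k, two_pow_torsion_free _ hz, hk1, hk2⟩

/-! ### Completeness -/

lemma complete : SequentiallyComplete GG := by
  intro u hu
  -- Cauchy in the norm
  have hC : ∀ ε > 0, ∃ N : ℕ, ∀ m ≥ N, ∀ n ≥ N, ‖u m - u n‖ < ε := by
    intro ε hε
    obtain ⟨N, hN⟩ := hu (Metric.ball 0 ε) (Metric.ball_mem_nhds 0 hε)
    refine ⟨N, fun m hm n hn => ?_⟩
    have := hN m hm n hn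
    rwa [mem_ball_zero_iff] at this
  -- coordinates converge
  have hcc : ∀ i, ∃ t : UnitAddCircle, Tendsto (fun n => co i (u n)) atTop (𝓝 t) := by
    intro i
    apply cauchySeq_tendsto_of_complete
    rw [Metric.cauchySeq_iff]
    intro ε hε
    obtain ⟨N, hN⟩ := hC (ε ^ pw i) (Real.rpow_pos_of_pos hε _)
    refine ⟨N, fun m hm n hn => ?_⟩
    have h1 := hN m hm n hn
    have h2 := wt_le_norm (u m - u n) i
    rw [map_sub] at h2
    rw [dist_eq_norm]
    by_contra hcon
    rw [not_lt] at hcon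
    have h3 : ε ^ pw i ≤ ‖co i (u m) - co i (u n)‖ ^ pw i :=
      Real.rpow_le_rpow hε.le hcon (pw_pos i).le
    unfold wt at h2
    linarith
  choose x hx using hcc
  -- finite sums of differences
  have hpart : ∀ (k n : ℕ) (C : ℝ) (y : GG) (v : ℕ → GG) (w : ℕ → UnitAddCircle),
      (∀ i, Tendsto (fun m => co i (v m)) atTop (𝓝 (w i))) →
      (∀ m ≥ n, ‖y - v m‖ ≤ C) →
      ∑ i ∈ Finset.range k, wt i (co i y - w i) ≤ C := by
    intro k n C y v w hw hv
    have ht : Tendsto (fun m => ∑ i ∈ Finset.range k, wt i (co i y - co i (v m))) atTop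
        (𝓝 (∑ i ∈ Finset.range k, wt i (co i y - w i))) := by
      apply tendsto_finsetSum
      intro i _
      exact ((continuous_wt i).tendsto _).comp (tendsto_const_nhds.sub (hw i))
    apply le_of_tendsto ht
    filter_upwards [eventually_ge_atTop n] with m hm
    calc ∑ i ∈ Finset.range k, wt i (co i y - co i (v m))
        = ∑ i ∈ Finset.range k, wt i (co i (y - v m)) := by simp only [map_sub]
      _ ≤ ‖y - v m‖ := sum_le_hasSum _ (fun i _ => wt_nonneg _ _) (hasSum_norm _)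
      _ ≤ C := hv m hm
  have hsummable : ∀ n : ℕ, ∀ C : ℝ, (∀ m ≥ n, ‖u n - u m‖ ≤ C) →
      Summable (fun i => wt i (co i (u n) - x i)) ∧ ∑' i, wt i (co i (u n) - x i) ≤ C := by
    intro n C hn
    have hb : ∀ k, ∑ i ∈ Finset.range k, wt i (co i (u n) - x i) ≤ C :=
      fun k => hpart k n C (u n) u x hx hn
    exact ⟨summable_of_sum_range_le (fun i => wt_nonneg _ _) hb,
      Real.tsum_le_of_sum_range_le (fun i => wt_nonneg _ _) hb⟩
  have hxG : x ∈ GSub := by
    refine ⟨?_, ?_, ?_⟩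
    · obtain ⟨N, hN⟩ := hC 1 one_pos
      have h1 := (hsummable N 1 (fun m hm => (hN N le_rfl m hm).le)).1
      have h2 := summable_wt (u N)
      refine Summable.of_nonneg_of_le (fun i => wt_nonneg _ _) (fun i => ?_) (h2.add h1)
      have h3 := wt_add i (co i (u N)) (-(co i (u N) - x i))
      rw [wt_neg] at h3
      have h4 : co i (u N) + -(co i (u N) - x i) = x i := by abel
      rwa [h4] at h3
    · intro i
      have h1 : Tendsto (fun n => (2 ^ ea i) • co i (u n)) atTop (𝓝 ((2 ^ ea i) • x i)) :=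
        ((continuous_nsmul (2 ^ ea i)).tendsto _).comp (hx i)
      simp only [co_order] at h1
      exact tendsto_nhds_unique h1 tendsto_const_nhds
    · intro i
      have h1 : Tendsto (fun n => (2 ^ (ea (i + 1) - ea i)) • co (i + 1) (u n)) atTop
          (𝓝 ((2 ^ (ea (i + 1) - ea i)) • x (i + 1))) :=
        ((continuous_nsmul _).tendsto _).comp (hx (i + 1))
      simp only [co_compat] at h1
      exact tendsto_nhds_unique h1 (hx i)
  obtain ⟨y, hy⟩ : ∃ y : GG, ∀ i, co i y = x i := ⟨⟨x, hxG⟩, fun i => rfl⟩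
  refine ⟨y, ?_⟩
  rw [Metric.tendsto_atTop]
  intro ε hε
  obtain ⟨N, hN⟩ := hC (ε / 2) (by linarith)
  refine ⟨N, fun n hn => ?_⟩
  rw [dist_eq_norm, norm_def]
  have h1 := (hsummable n (ε / 2) (fun m hm => (hN n hn m (le_trans hn hm)).le)).2
  have h2 : (fun i => wt i (co i (u n - y))) = fun i => wt i (co i (u n) - x i) := by
    funext i
    rw [map_sub, hy]
  rw [h2]
  linarith

/-! ### Local minimality -/

lemma locMin_aux {G : Type} [AddCommGroup G] [TopologicalSpace G] [IsTopologicalAddGroup G]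
    (N : G → ℝ) (K : ℕ → Set G) (hN0 : N 0 = 0)
    (hadd : ∀ s : G, ∀ η > 0, ∃ l, ∀ x ∈ K l, N s + N x - η ≤ N (s + x))
    (hK : ∀ l, ∃ a : ℕ, ∀ x, (∀ s < a, N ((2 ^ s) • x) < 1 / 2) → x ∈ K l)
    (hV : {x | N x < 1 / 2} ∈ 𝓝 (0 : G)) {ε : ℝ} (hε : 0 < ε) :
    {x | N x < ε} ∈ 𝓝 (0 : G) := by
  by_contra hcon
  have hKn : ∀ l, K l ∈ 𝓝 (0 : G) := by
    intro l
    obtain ⟨a, ha⟩ := hK l
    have h1 : ∀ s : ℕ, {x : G | N ((2 ^ s) • x) < 1 / 2} ∈ 𝓝 (0 : G) := by
      intro s
      have hc : Tendsto (fun x : G => (2 ^ s) • x) (𝓝 0) (𝓝 0) := by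
        have := (continuous_nsmul (M := G) (2 ^ s)).tendsto 0
        rwa [smul_zero] at this
      exact hc hV
    have h2 : (⋂ s ∈ Finset.range a, {x : G | N ((2 ^ s) • x) < 1 / 2}) ∈ 𝓝 (0 : G) := by
      rw [Filter.biInter_finset_mem]
      intro s _
      exact h1 s
    refine Filter.mem_of_superset h2 ?_
    intro x hx
    apply ha
    intro s hs
    simp only [Set.mem_iInter, Finset.mem_range] at hx
    exact hx s hs
  have hstep : ∀ n : ℕ, ∃ s ∈ interior {x : G | N x < 1 / 2}, (n : ℝ) * (ε / 2) ≤ N s := by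
    intro n
    induction n with
    | zero =>
      refine ⟨0, mem_interior_iff_mem_nhds.mpr hV, ?_⟩
      simp [hN0]
    | succ n ih =>
      obtain ⟨s, hs, hn⟩ := ih
      obtain ⟨l, hl⟩ := hadd s (ε / 2) (by linarith)
      have h1 : {x : G | s + x ∈ interior {x : G | N x < 1 / 2}} ∈ 𝓝 (0 : G) := by
        have hc : Tendsto (fun x : G => s + x) (𝓝 0) (𝓝 s) := by
          have := (continuous_const_add s).tendsto (0 : G)
          rwa [add_zero] at this
        exact hc (isOpen_interior.mem_nhds hs)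
      have h2 := Filter.inter_mem h1 (hKn l)
      have h3 : ¬ ({x : G | s + x ∈ interior {x : G | N x < 1 / 2}} ∩ K l ⊆ {x | N x < ε}) :=
        fun h => hcon (Filter.mem_of_superset h2 h)
      rw [Set.not_subset] at h3
      obtain ⟨x, ⟨hx1, hx2⟩, hx3⟩ := h3
      refine ⟨s + x, hx1, ?_⟩
      have h4 := hl x hx2
      simp only [Set.mem_ofPred_eq, not_lt] at hx3
      push_cast
      linarith
  obtain ⟨n, hn⟩ := exists_nat_gt (1 / ε)
  obtain ⟨s, hs, h⟩ := hstep n
  have h1 : s ∈ {x : G | N x < 1 / 2} := interior_subset hs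
  have h1 : N s < 1 / 2 := h1
  have h2 : 1 < n * ε := by
    rw [div_lt_iff₀ hε] at hn
    exact hn
  linarith

lemma locallyMinimal : LocallyMinimal GG := by
  refine ⟨Metric.ball 0 (1 / 2), Metric.ball_mem_nhds 0 (by norm_num), ?_⟩
  intro t' ht' _ hle hV
  have hball : ∀ r : ℝ, Metric.ball (0 : GG) r = {x | ‖x‖ < r} := by
    intro r
    ext x
    rw [mem_ball_zero_iff]
    rfl
  refine IsTopologicalAddGroup.ext ht' inferInstance ?_
  apply le_antisymm
  · -- every norm ball is a neighbourhood of zero for `t'`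
    intro U hU
    rw [Metric.mem_nhds_iff] at hU
    obtain ⟨ε, hε, hU⟩ := hU
    refine Filter.mem_of_superset ?_ hU
    rw [hball]
    rw [hball] at hV
    refine @locMin_aux GG _ t' ht' (fun x => ‖x‖) (fun l => {x | ∀ i < l, co i x = 0})
      norm_zero ?_ ?_ hV ε hε
    · intro s η hη
      exact almost_additive s hη
    · intro l
      refine ⟨ea l, ?_⟩
      intro x hx i hi
      by_contra hne
      obtain ⟨s, hs, h⟩ := exists_large hne
      have h1 : ea i ≤ ea l := Nat.factorial_le (by omega)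
      have := hx s (by omega)
      linarith
  · exact nhds_mono hle

/-! ### Closed zero-dimensional subgroups are trivial -/

lemma walk_step {H : AddSubgroup GG} {A B : Set GG} (hA4 : ∀ x ∈ A, ‖x‖ < 1 / 4)
    (hAH : A ⊆ H) (hcover : ∀ x ∈ H, x ∉ A → x ∈ B)
    {z : GG} (hz : z ≠ 0) (hzH : z ∈ H) {s : GG} (hs : s ∈ A) {ε : ℝ} (hε : 0 < ε) :
    ∃ s' ∈ A, ‖s‖ + ‖s' - s‖ - ε ≤ ‖s'‖ ∧ ∃ y ∈ B, ‖y - s'‖ ≤ ε := by
  obtain ⟨l, hl⟩ := almost_additive s (η := min ε (1 / 4)) (by positivity)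
  obtain ⟨n, hn0, hnl, hnε⟩ := exists_small_nonzero hz hε l
  set x := n • z with hx
  have hxH : x ∈ H := H.nsmul_mem hzH n
  have hlk : ∀ k : ℕ, ‖s‖ + ‖k • x‖ - min ε (1 / 4) ≤ ‖s + k • x‖ := by
    intro k
    apply hl
    intro i hi
    rw [map_nsmul, hnl i hi, smul_zero]
  have hex : ∃ k : ℕ, s + k • x ∉ A := by
    obtain ⟨t, ht⟩ := exists_large' hn0
    refine ⟨2 ^ t, fun hmem => ?_⟩
    have h1 := hA4 _ hmem
    have h2 := hlk (2 ^ t)
    have h3 := min_le_right ε (1 / 4)
    have h4 := norm_nonneg s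
    linarith
  classical
  have hfind := Nat.find_spec hex
  have hmin := fun m => Nat.find_min (m := m) hex
  set k := Nat.find hex with hk
  have hk0 : k ≠ 0 := by
    intro h0
    rw [h0] at hfind
    simp at hfind
    exact hfind hs
  have hk1 : s + (k - 1) • x ∈ A := by
    have := hmin (k - 1) (by omega)
    rwa [not_not] at this
  refine ⟨s + (k - 1) • x, hk1, ?_, s + k • x, ?_, ?_⟩
  · rw [add_sub_cancel_left]
    have h2 := hlk (k - 1)
    have h3 := min_le_left ε (1 / 4)
    linarith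
  · exact hcover _ (H.add_mem (hAH hs) (H.nsmul_mem hxH k)) hfind
  · have h5 : s + k • x - (s + (k - 1) • x) = x := by
      have : k • x = (k - 1) • x + x := by
        rw [← succ_nsmul]; congr 1; omega
      rw [this]; abel
    rw [h5]
    exact hnε.le

lemma no_split {H : AddSubgroup GG} {A B : Set GG} (hA : IsClosed A) (hB : IsClosed B)
    (hdisj : Disjoint A B) (h0 : (0 : GG) ∈ A) (hA4 : ∀ x ∈ A, ‖x‖ < 1 / 4)
    (hAH : A ⊆ H) (hcover : ∀ x ∈ H, x ∉ A → x ∈ B)
    {z : GG} (hz : z ≠ 0) (hzH : z ∈ H) : False := by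
  have hstep : ∀ (s : A) (n : ℕ), ∃ s' : A,
      ‖(s : GG)‖ + ‖(s' : GG) - s‖ - (1 / 2) ^ n ≤ ‖(s' : GG)‖ ∧
        ∃ y ∈ B, ‖y - s'‖ ≤ (1 / 2) ^ n := by
    intro s n
    obtain ⟨s', hs', h1, h2⟩ := walk_step hA4 hAH hcover hz hzH s.2
      (show (0 : ℝ) < (1 / 2) ^ n by positivity)
    exact ⟨⟨s', hs'⟩, h1, h2⟩
  choose f hf1 y hyB hf2 using hstep
  let u : ℕ → A := fun n => Nat.rec ⟨0, h0⟩ (fun k s => f s k) n
  have hu : ∀ n, u (n + 1) = f (u n) n := fun n => rfl
  have hbound : ∀ n, ∑ k ∈ Finset.range n, ‖(u (k + 1)).1 - (u k).1‖ ≤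
      ‖(u n).1‖ + ∑ k ∈ Finset.range n, (1 / 2 : ℝ) ^ k := by
    intro n
    induction n with
    | zero => simp
    | succ n ih =>
      rw [Finset.sum_range_succ, Finset.sum_range_succ]
      have h1 := hf1 (u n) n
      rw [← hu n] at h1
      linarith
  have hgeo : ∀ n, ∑ k ∈ Finset.range n, (1 / 2 : ℝ) ^ k ≤ 2 := by
    intro n
    calc ∑ k ∈ Finset.range n, (1 / 2 : ℝ) ^ k ≤ ∑' k, (1 / 2 : ℝ) ^ k :=
          summable_geometric_two.sum_le_tsum _ (fun i _ => by positivity)
      _ = 2 := tsum_geometric_two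
  have hsum : Summable (fun k => dist (u k).1 (u (k + 1)).1) := by
    have h1 : ∀ n, ∑ k ∈ Finset.range n, dist (u k).1 (u (k + 1)).1 ≤ 3 := by
      intro n
      have h2 := hbound n
      have h3 := hgeo n
      have h4 := hA4 _ (u n).2
      have h5 : ∑ k ∈ Finset.range n, dist (u k).1 (u (k + 1)).1 =
          ∑ k ∈ Finset.range n, ‖(u (k + 1)).1 - (u k).1‖ := by
        apply Finset.sum_congr rfl
        intro k _
        rw [dist_comm, dist_eq_norm]
      rw [h5]
      linarith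
    exact summable_of_sum_range_le (fun _ => dist_nonneg) h1
  have hcauchy := cauchySeq_of_summable_dist hsum
  obtain ⟨s, hs⟩ := complete (fun n => (u n).1) (by
    intro U hU
    rw [Metric.mem_nhds_iff] at hU
    obtain ⟨ε, hε, hU⟩ := hU
    rw [Metric.cauchySeq_iff] at hcauchy
    obtain ⟨N, hN⟩ := hcauchy ε hε
    refine ⟨N, fun m hm n hn => hU ?_⟩
    have := hN m hm n hn
    rw [mem_ball_zero_iff]
    rwa [dist_eq_norm] at this)
  have hsA : s ∈ A := hA.mem_of_tendsto hs (Filter.Eventually.of_forall (fun n => (u n).2))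
  have hs1 : Tendsto (fun n => (u (n + 1)).1) atTop (𝓝 s) :=
    hs.comp (tendsto_add_atTop_nat 1)
  have hdiff : Tendsto (fun n => y (u n) n - (u (n + 1)).1) atTop (𝓝 0) := by
    rw [tendsto_zero_iff_norm_tendsto_zero]
    apply squeeze_zero (fun n => norm_nonneg _) (g := fun n => (1 / 2 : ℝ) ^ n)
    · intro n
      have := hf2 (u n) n
      rwa [← hu n] at this
    · exact tendsto_pow_atTop_nhds_zero_of_lt_one (by norm_num) (by norm_num)
  have hy : Tendsto (fun n => y (u n) n) atTop (𝓝 s) := by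
    have := hdiff.add hs1
    simpa using this
  have hsB : s ∈ B := hB.mem_of_tendsto hy (Filter.Eventually.of_forall (fun n => hyB _ _))
  exact Set.disjoint_left.mp hdisj hsA hsB

lemma zeroDim_trivial (H : AddSubgroup GG) (hH : IsClosed (H : Set GG))
    (hz : ZeroDimensional H) : H = ⊥ := by
  by_contra hne
  obtain ⟨z, hzH, hz0⟩ : ∃ z ∈ H, z ≠ 0 := by
    by_contra hcon
    push Not at hcon
    exact hne ((AddSubgroup.eq_bot_iff_forall H).mpr hcon)
  obtain ⟨-, hbase⟩ := hz
  have hopen : IsOpen {x : H | ‖(x : GG)‖ < 1 / 4} :=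
    isOpen_lt (continuous_norm.comp continuous_subtype_val) continuous_const
  obtain ⟨O, hO, h0O, hOsub⟩ := hbase.exists_subset_of_mem_open
    (show (0 : H) ∈ {x : H | ‖(x : GG)‖ < 1 / 4} by simp) hopen
  have hOclopen : IsClopen O := hO
  have hemb : IsClosedEmbedding (Subtype.val : H → GG) := hH.isClosedEmbedding_subtypeVal
  refine no_split (H := H) (A := Subtype.val '' O) (B := Subtype.val '' Oᶜ)
    (hemb.isClosedMap _ hOclopen.isClosed) (hemb.isClosedMap _ hOclopen.compl.isClosed) ?_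
    ⟨0, h0O, rfl⟩ ?_ ?_ ?_ hz0 hzH
  · rw [Set.disjoint_image_iff Subtype.val_injective]
    exact disjoint_compl_right
  · rintro _ ⟨x, hx, rfl⟩
    exact hOsub hx
  · rintro _ ⟨x, _, rfl⟩
    exact x.2
  · intro x hx hxA
    refine ⟨⟨x, hx⟩, fun hxO => hxA ⟨⟨x, hx⟩, hxO, rfl⟩, rfl⟩

/-! ### Not locally Euclidean -/

lemma isClopen_coord (i : ℕ) : IsClopen {x : GG | co i x = 0} := by
  have hloc : ∀ x y : GG, ‖y - x‖ < ((2 : ℝ) ^ ea i)⁻¹ / 2 → co i y = co i x := by
    intro x y hxy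
    by_contra hne
    have h1 : co i (y - x) ≠ 0 := by
      rw [map_sub]
      exact sub_ne_zero.mpr hne
    obtain ⟨s, hs, h⟩ := exists_large h1
    have h2 : ‖(2 ^ s) • (y - x)‖ ≤ ((2 : ℝ) ^ s) * ‖y - x‖ := by
      have := @norm_nsmul_le _ _ (y - x) (2 ^ s)
      push_cast at this
      exact this
    have h3 : (2 : ℝ) ^ s ≤ 2 ^ ea i := pow_le_pow_right₀ (by norm_num) hs.le
    have h4 : ((2 : ℝ) ^ s) * ‖y - x‖ < 1 / 2 := by
      calc ((2 : ℝ) ^ s) * ‖y - x‖ ≤ (2 ^ ea i) * ‖y - x‖ :=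
            mul_le_mul_of_nonneg_right h3 (norm_nonneg _)
        _ < (2 ^ ea i) * (((2 : ℝ) ^ ea i)⁻¹ / 2) :=
            mul_lt_mul_of_pos_left hxy (by positivity)
        _ = 1 / 2 := by field_simp
    linarith
  have hr : (0 : ℝ) < ((2 : ℝ) ^ ea i)⁻¹ / 2 := by positivity
  constructor
  · rw [← isOpen_compl_iff, Metric.isOpen_iff]
    intro x hx
    refine ⟨_, hr, fun y hy => ?_⟩
    rw [mem_ball_iff_norm] at hy
    intro hy0
    apply hx
    change co i x = 0
    rw [← hloc x y hy]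
    exact hy0
  · rw [Metric.isOpen_iff]
    intro x hx
    refine ⟨_, hr, fun y hy => ?_⟩
    rw [mem_ball_iff_norm] at hy
    change co i y = 0
    rw [hloc x y hy]
    exact hx

lemma not_locallyEuclidean : ¬ LocallyEuclidean GG := by
  intro h
  obtain ⟨n, e, he⟩ := h 0
  obtain ⟨r, hr, hball⟩ := Metric.isOpen_iff.mp e.open_target _ (e.map_source he)
  have hpre : IsPreconnected (e.symm '' Metric.ball (e 0) r) := by
    apply (convex_ball (e 0) r).isPreconnected.image
    exact e.continuousOn_symm.mono hball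
  have hnhds : e.symm '' Metric.ball (e 0) r ∈ 𝓝 (0 : GG) := by
    have h1 : IsOpen (e.symm '' Metric.ball (e 0) r) :=
      e.symm.isOpen_image_of_subset_source Metric.isOpen_ball hball
    apply h1.mem_nhds
    exact ⟨e 0, Metric.mem_ball_self hr, e.left_inv he⟩
  obtain ⟨ε, hε, hsub⟩ := Metric.mem_nhds_iff.mp hnhds
  obtain ⟨z, hz⟩ := exists_nonzero
  obtain ⟨m, hm0, -, hmε⟩ := exists_small_nonzero hz hε 0
  have hmC : m • z ∈ e.symm '' Metric.ball (e 0) r := hsub (by rwa [mem_ball_zero_iff])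
  have h0C : (0 : GG) ∈ e.symm '' Metric.ball (e 0) r := mem_of_mem_nhds hnhds
  apply hm0
  apply co_ext
  intro i
  rw [map_zero]
  have := hpre.subset_isClopen (isClopen_coord i) ⟨0, h0C, by simp⟩
  exact this hmC

/-- There is an abelian Hausdorff topological group that is locally minimal and sequentially
complete, all of whose closed zero-dimensional subgroups are finite, but which is not locally
Euclidean (hence not a Lie group). -/
theorem result :
    ∃ (G : Type) (_ : AddCommGroup G) (_ : TopologicalSpace G),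
      IsTopologicalAddGroup G ∧ T2Space G ∧ LocallyMinimal G ∧ SequentiallyComplete G ∧
      (∀ H : AddSubgroup G, IsClosed (H : Set G) → ZeroDimensional H → Finite H) ∧
      ¬ LocallyEuclidean G := by
  refine ⟨GG, inferInstance, inferInstance, inferInstance, inferInstance, locallyMinimal,
    complete, ?_, not_locallyEuclidean⟩
  intro H hH hz
  rw [zeroDim_trivial H hH hz]
  infer_instance

end Pool.Agent.Results.MP_54b62b_gt.NotLie
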